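import Mathlib
import Pool.Agent.Lib.helper25.SqrtCF

set_option autoImplicit false

namespace Pool.Agent.Results.MP_f17d28_nt.TwoConvergents

/-- The map `f_d(x) = (d x + k) / (x + d)` on `ℚ ∪ {∞}`; `none` is `∞`. -/
def f (k : ℕ) (d : ℚ) : Option ℚ → Option ℚ
  | none => some d
  | some x => if x + d = 0 then none else some ((d * x + k) / (x + d))

/-- The partial quotient `c_n` of the simple continued fraction of `√k`. -/
noncomputable def c (k n : ℕ) : ℤ := ⌊(fun x : ℝ => (Int.fract x)⁻¹)^[n] (Real.sqrt k)⌋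

/-- The convergent `p_j / q_j = [c_0; c_1, …, c_{j-1}]` of `√k`, for `j ≥ 1`. -/
noncomputable def conv (k j : ℕ) : ℚ := (Real.sqrt k).convergent (j - 1)

noncomputable def al (m d : ℤ) : ℝ := ((m : ℝ) + Real.sqrt (45 : ℕ)) / d

lemma s_eq : Real.sqrt (45 : ℕ) = al 0 1 := by simp [al]

lemma s0 : ⌊al 0 1⌋ = 6 ∧ (Int.fract (al 0 1))⁻¹ = al 6 9 :=
  Pool.Agent.Lib.H25SqrtCF.step 45 6 0 1 6 6 9 (by norm_num) (by norm_num) (by norm_num)
    (by norm_num) (by norm_num) (by norm_num) (by norm_num) (by norm_num) (by norm_num)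

lemma s1 : ⌊al 6 9⌋ = 1 ∧ (Int.fract (al 6 9))⁻¹ = al 3 4 :=
  Pool.Agent.Lib.H25SqrtCF.step 45 6 6 9 1 3 4 (by norm_num) (by norm_num) (by norm_num)
    (by norm_num) (by norm_num) (by norm_num) (by norm_num) (by norm_num) (by norm_num)

lemma s2 : ⌊al 3 4⌋ = 2 ∧ (Int.fract (al 3 4))⁻¹ = al 5 5 :=
  Pool.Agent.Lib.H25SqrtCF.step 45 6 3 4 2 5 5 (by norm_num) (by norm_num) (by norm_num)
    (by norm_num) (by norm_num) (by norm_num) (by norm_num) (by norm_num) (by norm_num)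

lemma s3 : ⌊al 5 5⌋ = 2 ∧ (Int.fract (al 5 5))⁻¹ = al 5 4 :=
  Pool.Agent.Lib.H25SqrtCF.step 45 6 5 5 2 5 4 (by norm_num) (by norm_num) (by norm_num)
    (by norm_num) (by norm_num) (by norm_num) (by norm_num) (by norm_num) (by norm_num)

lemma s4 : ⌊al 5 4⌋ = 2 ∧ (Int.fract (al 5 4))⁻¹ = al 3 9 :=
  Pool.Agent.Lib.H25SqrtCF.step 45 6 5 4 2 3 9 (by norm_num) (by norm_num) (by norm_num)
    (by norm_num) (by norm_num) (by norm_num) (by norm_num) (by norm_num) (by norm_num)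

lemma s5 : ⌊al 3 9⌋ = 1 ∧ (Int.fract (al 3 9))⁻¹ = al 6 1 :=
  Pool.Agent.Lib.H25SqrtCF.step 45 6 3 9 1 6 1 (by norm_num) (by norm_num) (by norm_num)
    (by norm_num) (by norm_num) (by norm_num) (by norm_num) (by norm_num) (by norm_num)

lemma s6 : ⌊al 6 1⌋ = 12 ∧ (Int.fract (al 6 1))⁻¹ = al 6 9 :=
  Pool.Agent.Lib.H25SqrtCF.step 45 6 6 1 12 6 9 (by norm_num) (by norm_num) (by norm_num)
    (by norm_num) (by norm_num) (by norm_num) (by norm_num) (by norm_num) (by norm_num)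

lemma c0 : (Real.sqrt (45 : ℕ)).convergent 0 = 6 / 1 := by
  rw [s_eq, Real.convergent_zero, s0.1]
  norm_num

lemma c4 : (Real.sqrt (45 : ℕ)).convergent 4 = 114 / 17 := by
  rw [s_eq, Real.convergent_succ, s0.1, s0.2, Real.convergent_succ, s1.1, s1.2, Real.convergent_succ, s2.1, s2.2, Real.convergent_succ, s3.1, s3.2, Real.convergent_zero, s4.1]
  norm_num

lemma it (n : ℕ) (x : ℝ) : (fun x : ℝ => (Int.fract x)⁻¹)^[n + 1] x =
    (fun x : ℝ => (Int.fract x)⁻¹)^[n] (Int.fract x)⁻¹ := Function.iterate_succ_apply _ _ _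

lemma per (n : ℕ) : c 45 (n + 1 + 6) = c 45 (n + 1) := by
  unfold c
  rw [s_eq, it n, show n + 1 + 6 = n + 1 + 1 + 1 + 1 + 1 + 1 + 1 by ring, it, s0.2, it, s1.2, it,
    s2.2, it, s3.2, it, s4.2, it, s5.2, it, s6.2]

lemma vals : c 45 1 = 1 ∧ c 45 2 = 2 ∧ c 45 3 = 2 ∧ c 45 4 = 2 ∧ c 45 6 = 12 := by
  unfold c
  rw [s_eq]
  refine ⟨?_, ?_, ?_, ?_, ?_⟩
  · rw [it, s0.2]; exact s1.1
  · rw [it, s0.2, it, s1.2]; exact s2.1
  · rw [it, s0.2, it, s1.2, it, s2.2]; exact s3.1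
  · rw [it, s0.2, it, s1.2, it, s2.2, it, s3.2]; exact s4.1
  · rw [it, s0.2, it, s1.2, it, s2.2, it, s3.2, it, s4.2, it, s5.2]; exact s6.1

lemma big (n : ℕ) (x : ℚ) (hx : 6 ≤ x) : ∃ y : ℚ, 6 < y ∧ (f 45 9)^[n + 1] (some x) = some y := by
  induction n with
  | zero =>
    refine ⟨(9 * x + 45) / (x + 9), ?_, ?_⟩
    · rw [lt_div_iff₀ (by linarith)]; linarith
    · have : x + 9 ≠ 0 := by linarith
      simp [f, this]
  | succ n ih =>
    obtain ⟨y, hy, e⟩ := ih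
    refine ⟨(9 * y + 45) / (y + 9), ?_, ?_⟩
    · rw [lt_div_iff₀ (by linarith)]; linarith
    · have : y + 9 ≠ 0 := by linarith
      rw [Function.iterate_succ_apply', e]
      simp [f, this]

theorem result : ∃ (k : ℕ) (d : ℚ) (L : ℕ) (x₀ : ℚ) (i j : ℕ),
    0 < k ∧ ¬ IsSquare k ∧ 0 < d ∧ d.den = 1 ∧ (∃ R : ℤ, 4 * d ^ 2 / (k - d ^ 2) = R) ∧
    IsLeast {l : ℕ | 1 ≤ l ∧ ∀ n, 1 ≤ n → c k (n + l) = c k n} L ∧
    (∀ n : ℕ, (f k d)^[n] none ≠ some x₀ ∧ (f k d)^[n] (some x₀) ≠ none) ∧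
    1 ≤ i ∧ 1 ≤ j ∧ (∃ n : ℕ, (f k d)^[n] (some x₀) = some (conv k i)) ∧
    (∃ n : ℕ, (f k d)^[n] (some x₀) = some (conv k j)) ∧ ¬ i ≡ j [MOD L] := by
  refine ⟨45, 9, 6, 6, 1, 5, by norm_num, by decide +kernel, by norm_num, by norm_num,
    ⟨-9, by norm_num⟩, ⟨⟨by norm_num, fun n hn => ?_⟩, ?_⟩, fun n => ⟨?_, ?_⟩, le_rfl,
    by norm_num, ⟨0, ?_⟩, ⟨3, ?_⟩, by decide⟩
  · obtain ⟨n, rfl⟩ : ∃ m, n = m + 1 := ⟨n - 1, by omega⟩
    exact per n
  · rintro l ⟨h1, h2⟩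
    obtain ⟨v1, v2, v3, v4, v6⟩ := vals
    by_contra hl
    have hl' : l < 6 := by omega
    have e1 := h2 1 le_rfl
    have e2 := h2 2 (by norm_num)
    interval_cases l <;> simp_all
  · rcases n with _ | _ | n
    · simp
    · simp [f]
    · obtain ⟨y, hy, e⟩ := big n 9 (by norm_num)
      rw [Function.iterate_succ_apply]
      change (f 45 9)^[n + 1] (some 9) ≠ _
      rw [e]
      intro h
      rw [Option.some.injEq] at h
      linarith
  · rcases n with _ | n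
    · simp
    · obtain ⟨y, hy, e⟩ := big n 6 le_rfl
      rw [e]; simp
  · have : conv 45 1 = 6 / 1 := c0
    rw [this]
    norm_num
  · have : conv 45 5 = 114 / 17 := c4
    rw [this]
    norm_num [f, Function.iterate_succ_apply']

end Pool.Agent.Results.MP_f17d28_nt.TwoConvergents
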